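import Mathlib

namespace Pool.Agent.Results.MP_a3b474_co.Upper

open Finset

/-- An adaptive strategy: name a coin, or weigh `L` against `R` on scale `i` and branch on the
reported outcome (`0` left lighter, `1` right lighter, `2` balance). -/
inductive St (N : ℕ) where
  | name (d : Fin N) : St N
  | weigh (i : Fin 3) (L R : Finset (Fin N)) (f : Fin 3 → St N) : St N

/-- The worst-case number of weighings. -/
def St.depth {N : ℕ} : St N → ℕ
  | .name _ => 0
  | .weigh _ _ _ f => max (f 0).depth (max (f 1).depth (f 2).depth) + 1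

/-- The correct outcome when `c` is the light coin. -/
def out {N : ℕ} (L R : Finset (Fin N)) (c : Fin N) : Fin 3 :=
  if c ∈ L then 0 else if c ∈ R then 1 else 2

/-- With light coin `c` and broken scale `s`, all weighings met are legal and `c` is named,
whatever the broken scale reports. -/
def St.Ok {N : ℕ} (c : Fin N) (s : Fin 3) : St N → Prop
  | .name d => d = c
  | .weigh i L R f => Disjoint L R ∧ #L = #R ∧ ∀ o, (i = s ∨ o = out L R c) → (f o).Ok c s

/-- `w(n)`. -/
noncomputable def w (n : ℕ) : ℕ :=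
  sInf {k | ∃ t : St (3 ^ (2 * n)), t.depth ≤ k ∧ ∀ c s, t.Ok c s}

variable {N : ℕ}

theorem split (S : Finset (Fin N)) (r : ℕ) (h : #S ≤ 3 ^ (r + 1)) : ∃ L R : Finset (Fin N),
    Disjoint L R ∧ #L = #R ∧ ∀ o, #{c ∈ S | o = out L R c} ≤ 3 ^ r := by
  obtain ⟨L, hL, eL⟩ := exists_subset_card_eq (s := S) (n := (#S + 1) / 3) (by omega)
  obtain ⟨R, hR, eR⟩ := exists_subset_card_eq (s := S \ L) (n := (#S + 1) / 3)
    (by rw [card_sdiff_of_subset hL]; omega)
  rw [pow_succ] at h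
  refine ⟨L, R, (disjoint_sdiff.mono_right hR), eL.trans eR.symm, fun o => ?_⟩
  have e := card_sdiff_of_subset hR
  rw [card_sdiff_of_subset hL] at e
  have k : ∀ c, (0 = out L R c → c ∈ L) ∧ (1 = out L R c → c ∈ R) ∧
      (2 = out L R c → c ∉ L ∧ c ∉ R) := fun c => by
    unfold out
    split_ifs <;> simp [*]
  fin_cases o
  · exact (card_le_card (t := L) fun c hc => (k c).1 (mem_filter.1 hc).2).trans (by omega)
  · exact (card_le_card (t := R) fun c hc => (k c).2.1 (mem_filter.1 hc).2).trans (by omega)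
  · refine (card_le_card (t := (S \ L) \ R) fun c hc => ?_).trans (by omega)
    have := (k c).2.2 (mem_filter.1 hc).2
    simp [(mem_filter.1 hc).1, this.1, this.2]

theorem leaf [NeZero N] (S : Finset (Fin N)) (h : #S ≤ 3 ^ 0) : ∃ d, ∀ c ∈ S, d = c := by
  rcases S.eq_empty_or_nonempty with rfl | ⟨d, hd⟩
  · exact ⟨0, by simp⟩
  · exact ⟨d, fun c hc => card_le_one.1 h _ hd _ hc⟩

theorem dep {i : Fin 3} {L R : Finset (Fin N)} {f : Fin 3 → St N} {k : ℕ}
    (h : ∀ o, (f o).depth ≤ k) : (St.weigh i L R f).depth ≤ k + 1 :=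
  Nat.succ_le_succ (max_le (h 0) (max_le (h 1) (h 2)))

theorem tru [NeZero N] : ∀ (r : ℕ) (S : Finset (Fin N)), #S ≤ 3 ^ r →
    ∃ t : St N, t.depth ≤ r ∧ ∀ c ∈ S, ∀ s, s ≠ 2 → t.Ok c s
  | 0, S, h => by
    obtain ⟨d, hd⟩ := leaf S h
    exact ⟨.name d, le_rfl, fun c hc _ _ => hd c hc⟩
  | r + 1, S, h => by
    obtain ⟨L, R, a, b, e⟩ := split S r h
    choose f hf hf' using fun o => tru r _ (e o)
    exact ⟨.weigh 2 L R f, dep hf, fun c hc s hs => ⟨a, b, fun o ho =>
      hf' o c (mem_filter.2 ⟨hc, ho.resolve_left hs.symm⟩) s hs⟩⟩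

theorem blk [NeZero N] (S : Finset (Fin N)) (r q m : ℕ) (hS : #S ≤ 3 ^ r) (hq : 3 ^ (q + 1) ≤ N)
    (hm : r ≤ m) (ih : ∀ T : Finset (Fin N), #T ≤ 3 ^ q →
      ∃ t : St N, t.depth ≤ m ∧ ∀ c ∈ T, ∀ s, t.Ok c s) :
    ∀ (j : ℕ) (T : Finset (Fin N)), #T ≤ 3 ^ (q + j) →
      ∃ t : St N, t.depth ≤ m + 1 + j ∧ ∀ c ∈ S, ∀ s, (s = 0 ∨ c ∈ T) → t.Ok c s
  | 0, T, h => by
    obtain ⟨R, hR, eR⟩ := exists_subset_card_eq (s := Tᶜ) (n := #T)
      (by rw [card_compl, Fintype.card_fin]; rw [pow_succ] at hq; rw [add_zero] at h; omega)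
    obtain ⟨t, a, b⟩ := ih T h
    obtain ⟨u, d, e⟩ := tru r S hS
    refine ⟨.weigh 1 T R fun o => if o = 0 then t else u, dep fun o => by split_ifs <;> omega,
      fun c hc s hs => ⟨disjoint_compl_right.mono_right hR, eR.symm, fun o ho => ?_⟩⟩
    unfold out at ho
    show St.Ok c s (if o = 0 then t else u)
    by_cases p : o = 0
    · rw [if_pos p]
      refine b c ?_ s
      by_contra n
      rw [if_neg n] at ho
      obtain rfl := hs.resolve_right n
      subst p
      split_ifs at ho <;> simp at ho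
    · rw [if_neg p]
      refine e c hc s ?_
      rintro rfl
      rw [if_pos (hs.resolve_left (by decide))] at ho
      exact p (ho.resolve_left (by decide))
  | j + 1, T, h => by
    obtain ⟨L, R, a, b, e⟩ := split T (q + j) h
    choose f hf hf' using fun o => blk S r q m hS hq hm ih j _ (e o)
    refine ⟨.weigh 0 L R f, dep hf, fun c hc s hs => ⟨a, b, fun o ho => hf' o c hc s ?_⟩⟩
    by_cases p : s = 0
    · exact Or.inl p
    · exact Or.inr (mem_filter.2 ⟨hs.resolve_left p, ho.resolve_left (Ne.symm p)⟩)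

theorem main [NeZero N] : ∀ (K r : ℕ), 2 * r + K ≤ K ^ 2 → 3 ^ r ≤ N → ∀ S : Finset (Fin N),
    #S ≤ 3 ^ r → ∃ t : St N, t.depth ≤ r + K ∧ ∀ c ∈ S, ∀ s, t.Ok c s := by
  intro K
  induction K with
  | zero =>
    intro r h _ S hS
    obtain rfl : r = 0 := by omega
    obtain ⟨d, hd⟩ := leaf S hS
    exact ⟨.name d, le_rfl, fun c hc _ => hd c hc⟩
  | succ K ih =>
    intro r h hN S hS
    rcases Nat.eq_zero_or_pos r with rfl | r0
    · obtain ⟨d, hd⟩ := leaf S hS
      exact ⟨.name d, Nat.zero_le _, fun c hc _ => hd c hc⟩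
    have e : (K + 1) ^ 2 = K ^ 2 + 2 * K + 1 := by ring
    have K0 : 0 < K := by
      rcases K with _ | K
      · omega
      · omega
    have := Nat.le_self_pow (n := 2) (by omega) K
    have a : 3 ^ (r - K + 1) ≤ N := (Nat.pow_le_pow_right (by omega) (by omega)).trans hN
    obtain ⟨t, u, v⟩ := blk S r (r - K) (r - K + K) hS a (by omega)
      (ih (r - K) (by omega) ((Nat.pow_le_pow_right (by omega) (by omega)).trans hN))
      (r - (r - K)) S (by rwa [show r - K + (r - (r - K)) = r by omega])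
    exact ⟨t, by omega, fun c hc s => v c hc s (Or.inr hc)⟩

theorem result (n K : ℕ) (h : 4 * n + K ≤ K ^ 2) : w n ≤ 2 * n + K := by
  obtain ⟨t, a, b⟩ := main (N := 3 ^ (2 * n)) K (2 * n) (by omega) le_rfl univ (by simp)
  exact Nat.sInf_le ⟨t, a, fun c s => b c (mem_univ _) s⟩

end Pool.Agent.Results.MP_a3b474_co.Upper
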